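import Pool.Agent.helper62.VD.SpecE2

/-!
# Project VD (MP_07c750_an), block E part 2, row SLF: the formula for the Liouville measure
-/

set_option autoImplicit false

open MeasureTheory Filter Set Topology
open scoped ENNReal ContDiff InnerProductSpace

namespace Pool.Agent.VDE

open VD

noncomputable section

theorem SLF_dir {d : ℕ} {G : V d → V d →L[ℝ] V d} (hc : Continuous (nrm G : P d → ℝ)) : Measurable (dir G : P d → P d) := by
  unfold dir
  exact measurable_fst.prodMk ((hc.measurable.inv).smul measurable_snd)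

/-- scaling of the fibres -/
theorem SLF_scale {d : ℕ} (S : Set (P d)) (hS : MeasurableSet S) (a : ℝ) (ha : 0 < a) :
    volume {p : P d | ((p.1, a⁻¹ • p.2) : P d) ∈ S} = ENNReal.ofReal (a ^ d) * volume S := by
  have hm : Measurable (fun p : P d => ((p.1, a⁻¹ • p.2) : P d)) := measurable_fst.prodMk (measurable_snd.const_smul a⁻¹)
  have hS' : MeasurableSet {p : P d | ((p.1, a⁻¹ • p.2) : P d) ∈ S} := hm hS
  show (volume : Measure (V d × V d)) _ = _ * (volume : Measure (V d × V d)) S
  rw [Measure.volume_eq_prod, Measure.prod_apply hS', Measure.prod_apply hS, ← lintegral_const_mul _ (measurable_measure_prodMk_left hS)]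
  congr 1
  funext x
  have h1 : Prod.mk x ⁻¹' {p : P d | ((p.1, a⁻¹ • p.2) : P d) ∈ S} = (fun ξ : V d => a⁻¹ • ξ) ⁻¹' (Prod.mk x ⁻¹' S) := rfl
  rw [h1, Measure.addHaar_preimage_smul _ (inv_ne_zero ha.ne')]
  congr 2
  rw [finrank_euclideanSpace_fin, inv_pow, inv_inv, abs_of_pos (pow_pos ha d)]

theorem SLF_proof (h1 : SNM_stmt) : SLF_stmt := by
  intro d G hG
  obtain ⟨hc, h0, hl, hd1, -⟩ := h1 d G hG
  have hdm := SLF_dir hc
  have hnn : ∀ p : P d, 0 ≤ nrm G p := fun p => by unfold nrm; exact Real.sqrt_nonneg _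
  have hform : ∀ A : Set (P d), MeasurableSet A → liou G A = volume {p : P d | 0 < nrm G p ∧ nrm G p ≤ 1 ∧ dir G p ∈ A} := by
    intro A hA
    unfold liou
    rw [Measure.map_apply hdm hA, Measure.restrict_apply (hdm hA)]
    congr 1
    ext p
    constructor
    · rintro ⟨h2, h3, h4⟩
      exact ⟨h3, h4, h2⟩
    · rintro ⟨h2, h3, h4⟩
      exact ⟨h4, h2, h3⟩
  refine ⟨hform, ?_, ?_⟩
  · intro A a b hA ha hab hfin
    have hSm : ∀ c : ℝ, MeasurableSet {p : P d | 0 < nrm G p ∧ nrm G p ≤ c ∧ dir G p ∈ A} := fun c =>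
      (measurableSet_lt measurable_const hc.measurable).inter ((measurableSet_le hc.measurable measurable_const).inter (hdm hA))
    rcases Nat.eq_zero_or_pos d with rfl | hd
    · have hemp : {p : P 0 | a < nrm G p ∧ nrm G p ≤ b ∧ dir G p ∈ A} = ∅ := by
        ext p
        simp only [mem_ofPred_eq, mem_empty_iff_false, iff_false, not_and]
        intro hp
        have : nrm G p = 0 := (h0 p).mpr (Subsingleton.elim _ _)
        exact absurd hp (not_lt.mpr (this.le.trans ha))
      rw [hemp]
      simp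
    · have hvol : ∀ c : ℝ, 0 ≤ c → volume {p : P d | 0 < nrm G p ∧ nrm G p ≤ c ∧ dir G p ∈ A} = ENNReal.ofReal (c ^ d) * liou G A := by
        intro c hc0
        rcases hc0.eq_or_lt with rfl | hcpos
        · have hemp : {p : P d | 0 < nrm G p ∧ nrm G p ≤ 0 ∧ dir G p ∈ A} = ∅ := by
            ext p
            simp only [mem_ofPred_eq, mem_empty_iff_false, iff_false, not_and]
            intro hp hp2
            exact absurd hp (not_lt.mpr hp2)
          rw [hemp, measure_empty, zero_pow hd.ne', ENNReal.ofReal_zero, zero_mul]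
        · rw [hform A hA, ← SLF_scale _ (hSm 1) c hcpos]
          congr 1
          ext ⟨x, ξ⟩
          have e1 : nrm G ((x, c⁻¹ • ξ) : P d) = c⁻¹ * nrm G (x, ξ) := by rw [hl, abs_of_pos (inv_pos.mpr hcpos)]
          have e2 : 0 < nrm G ((x, ξ) : P d) → dir G ((x, c⁻¹ • ξ) : P d) = dir G (x, ξ) := by
            intro hpos
            unfold dir
            rw [e1]
            show ((x, (c⁻¹ * nrm G (x, ξ))⁻¹ • c⁻¹ • ξ) : P d) = (x, (nrm G (x, ξ))⁻¹ • ξ)
            rw [smul_smul]
            congr 2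
            field_simp
          simp only [mem_ofPred_eq]
          rw [e1]
          constructor
          · rintro ⟨h2, h3, h4⟩
            refine ⟨mul_pos (inv_pos.mpr hcpos) h2, ?_, ?_⟩
            · rw [inv_mul_le_iff₀ hcpos, mul_one]
              exact h3
            · rw [e2 h2]
              exact h4
          · rintro ⟨h2, h3, h4⟩
            have h2' : 0 < nrm G ((x, ξ) : P d) := by
              by_contra hn
              exact absurd h2 (not_lt.mpr (mul_nonpos_of_nonneg_of_nonpos (inv_pos.mpr hcpos).le (not_lt.mp hn)))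
            rw [e2 h2'] at h4
            refine ⟨h2', ?_, h4⟩
            rw [inv_mul_le_iff₀ hcpos, mul_one] at h3
            exact h3
      have hb : 0 ≤ b := ha.trans hab
      have heq : {p : P d | a < nrm G p ∧ nrm G p ≤ b ∧ dir G p ∈ A} = {p : P d | 0 < nrm G p ∧ nrm G p ≤ b ∧ dir G p ∈ A} \ {p : P d | 0 < nrm G p ∧ nrm G p ≤ a ∧ dir G p ∈ A} := by
        ext p
        simp only [mem_ofPred_eq, Set.mem_sdiff, not_and]
        constructor
        · rintro ⟨h2, h3, h4⟩
          exact ⟨⟨ha.trans_lt h2, h3, h4⟩, fun _ h5 => absurd h2 (not_lt.mpr h5)⟩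
        · rintro ⟨⟨h2, h3, h4⟩, h5⟩
          refine ⟨?_, h3, h4⟩
          by_contra hn
          exact h5 h2 (not_lt.mp hn) h4
      rw [heq, measure_sdiff (by
        rintro p ⟨h2, h3, h4⟩
        exact ⟨h2, h3.trans hab, h4⟩) (hSm a).nullMeasurableSet (by
          rw [hvol a ha]
          exact ENNReal.mul_ne_top ENNReal.ofReal_ne_top hfin.ne), hvol b hb, hvol a ha,
        ENNReal.ofReal_sub _ (pow_nonneg ha d), ENNReal.sub_mul (fun _ _ => hfin.ne)]
  · have hm : MeasurableSet {p : P d | nrm G p ≠ 1} := (measurableSet_eq_fun hc.measurable measurable_const).compl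
    rw [hform _ hm]
    have hemp : {p : P d | 0 < nrm G p ∧ nrm G p ≤ 1 ∧ dir G p ∈ {p : P d | nrm G p ≠ 1}} = ∅ := by
      ext p
      simp only [mem_ofPred_eq, mem_empty_iff_false, iff_false, not_and, not_not]
      intro hp _
      exact hd1 p hp.ne'
    rw [hemp, measure_empty]

end

end Pool.Agent.VDE
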