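import Pool.Agent.helper62.VD.SpecE2

/-!
# Project VD (MP_07c750_an), block E part 2, row SLI: invariance of the Liouville measure
-/

set_option autoImplicit false

open MeasureTheory Filter Set Topology
open scoped ENNReal ContDiff InnerProductSpace

namespace Pool.Agent.VDE

open VD

noncomputable section

theorem SLI_ext {X : Type} [TopologicalSpace X] [MeasurableSpace X] [BorelSpace X] {μ ν : Measure X} [μ.Regular] [ν.Regular]
    (h : ∀ A : Set X, IsCompact A → μ A = ν A) : μ = ν := by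
  have hU : ∀ U : Set X, IsOpen U → μ U = ν U := by
    intro U hU
    rw [hU.measure_eq_iSup_isCompact μ, hU.measure_eq_iSup_isCompact ν]
    refine iSup_congr fun A => iSup_congr fun _ => iSup_congr fun hA => h A hA
  refine Measure.ext fun A _ => ?_
  rw [A.measure_eq_iInf_isOpen μ, A.measure_eq_iInf_isOpen ν]
  exact iInf_congr fun U => iInf_congr fun _ => iInf_congr fun hU' => hU U hU'

theorem SLI_fin {d : ℕ} {G : V d → V d →L[ℝ] V d} (h : ∀ L : Set (V d), IsCompact L → liou G {p : P d | p.1 ∈ L} < ⊤) :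
    IsLocallyFiniteMeasure (liou G) := by
  have : IsFiniteMeasureOnCompacts (liou G) := ⟨fun K hK =>
    lt_of_le_of_lt (measure_mono (fun p hp => mem_image_of_mem Prod.fst hp)) (h (Prod.fst '' K) (hK.image continuous_fst))⟩
  exact isLocallyFiniteMeasure_of_isFiniteMeasureOnCompacts

/-- the key inequality -/
theorem SLI_key {d : ℕ} {Γ : Type} [Group Γ] [MulAction Γ (V d)] {K F0 : Set (V d)} {G : V d → V d →L[ℝ] V d} {Φ : ℝ → P d → P d} {C : ℝ}
    {dd : P d → P d → ℝ} (hd : 1 ≤ d) (hF : FlD Γ K F0 G Φ C dd) [IsLocallyFiniteMeasure (liou G)]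
    (hc : Continuous (nrm G : P d → ℝ))
    (h2 : ∀ (A : Set (P d)) (a b : ℝ), MeasurableSet A → 0 ≤ a → a ≤ b → liou G A < ⊤ → volume {p : P d | a < nrm G p ∧ nrm G p ≤ b ∧ dir G p ∈ A} = ENNReal.ofReal (b ^ d - a ^ d) * liou G A)
    (t : ℝ) (A : Set (P d)) (hA : IsCompact A) : liou G A ≤ liou G (Φ t '' A) := by
  have hsm : Continuous (fun q : ℝ × P d => Φ q.1 q.2) := hF.flow.smooth.continuous
  have hct : Continuous (Φ t) := hsm.comp (continuous_const.prodMk continuous_id)
  have hA' : IsCompact (Φ t '' A) := hA.image hct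
  refine ENNReal.le_of_forall_pos_le_add fun ε hε _ => ?_
  obtain ⟨U, hAU, hUo, hUlt⟩ := (Φ t '' A).exists_isOpen_lt_add (μ := liou G) hA'.measure_lt_top.ne (ε := (ε : ℝ≥0∞)) (by simpa using hε.ne')
  refine le_trans ?_ hUlt.le
  have hUfin : liou G U < ⊤ := hUlt.trans_le le_top
  -- the tube
  have hev : ∀ᶠ l : ℝ in 𝓝 1, ∀ u ∈ A, Φ (l * t) u ∈ U := by
    refine hA.eventually_forall_of_forall_eventually (P := fun (l : ℝ) (u : P d) => Φ (l * t) u ∈ U) fun u hu => ?_
    have hcont : Continuous (fun z : ℝ × P d => Φ (z.1 * t) z.2) := hsm.comp ((continuous_fst.mul continuous_const).prodMk continuous_snd)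
    exact hcont.continuousAt.eventually (hUo.mem_nhds (by
      show Φ (1 * t) u ∈ U
      rw [one_mul]
      exact hAU (mem_image_of_mem _ hu)))
  obtain ⟨δ, hδ, hball⟩ := Metric.eventually_nhds_iff.mp hev
  have hδ2 : 0 < δ / 2 := by linarith
  have hsub : {p : P d | 1 < nrm G p ∧ nrm G p ≤ 1 + δ / 2 ∧ dir G p ∈ A} ⊆ Φ t ⁻¹' {p : P d | 1 < nrm G p ∧ nrm G p ≤ 1 + δ / 2 ∧ dir G p ∈ U} := by
    rintro ⟨x, ξ⟩ ⟨h3, h4, h5⟩
    have hpos : 0 < nrm G ((x, ξ) : P d) := lt_trans one_pos h3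
    have hp : ((x, ξ) : P d) = ((dir G (x, ξ)).1, nrm G ((x, ξ) : P d) • (dir G (x, ξ)).2) := by
      show ((x, ξ) : P d) = (x, nrm G ((x, ξ) : P d) • (nrm G ((x, ξ) : P d))⁻¹ • ξ)
      rw [smul_smul, mul_inv_cancel₀ hpos.ne', one_smul]
    have hΦ : Φ t ((x, ξ) : P d) = ((Φ (nrm G ((x, ξ) : P d) * t) (dir G (x, ξ))).1, nrm G ((x, ξ) : P d) • (Φ (nrm G ((x, ξ) : P d) * t) (dir G (x, ξ))).2) := by
      have h6 := hF.fs t (nrm G ((x, ξ) : P d)) (dir G (x, ξ)) hpos
      rw [← hp] at h6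
      exact h6
    have hn : nrm G (Φ t ((x, ξ) : P d)) = nrm G ((x, ξ) : P d) := hF.fn t (x, ξ)
    refine ⟨?_, ?_, ?_⟩
    · rw [hn]; exact h3
    · rw [hn]; exact h4
    · have hdir : dir G (Φ t ((x, ξ) : P d)) = Φ (nrm G ((x, ξ) : P d) * t) (dir G (x, ξ)) := by
        have e1 : dir G (Φ t ((x, ξ) : P d)) = ((Φ t ((x, ξ) : P d)).1, (nrm G ((x, ξ) : P d))⁻¹ • (Φ t ((x, ξ) : P d)).2) := by
          unfold dir
          rw [hn]
        rw [e1, hΦ]
        show (((Φ (nrm G ((x, ξ) : P d) * t) (dir G (x, ξ))).1, (nrm G ((x, ξ) : P d))⁻¹ • nrm G ((x, ξ) : P d) • (Φ (nrm G ((x, ξ) : P d) * t) (dir G (x, ξ))).2) : P d) = _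
        rw [smul_smul, inv_mul_cancel₀ hpos.ne', one_smul]
      rw [hdir]
      refine hball ?_ _ h5
      rw [Real.dist_eq, abs_of_pos (by linarith)]
      linarith
  have hvol : volume {p : P d | 1 < nrm G p ∧ nrm G p ≤ 1 + δ / 2 ∧ dir G p ∈ A} ≤ volume {p : P d | 1 < nrm G p ∧ nrm G p ≤ 1 + δ / 2 ∧ dir G p ∈ U} := by
    have hdm : Measurable (dir G : P d → P d) := by
      unfold dir
      exact measurable_fst.prodMk ((hc.measurable.inv).smul measurable_snd)
    have hmU : MeasurableSet {p : P d | 1 < nrm G p ∧ nrm G p ≤ 1 + δ / 2 ∧ dir G p ∈ U} :=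
      (measurableSet_lt measurable_const hc.measurable).inter ((measurableSet_le hc.measurable measurable_const).inter (hdm hUo.measurableSet))
    refine (measure_mono hsub).trans ?_
    rw [(hF.fm t).measure_preimage hmU.nullMeasurableSet]
  rw [h2 A 1 (1 + δ / 2) hA.measurableSet zero_le_one (by linarith) hA.measure_lt_top, h2 U 1 (1 + δ / 2) hUo.measurableSet zero_le_one (by linarith) hUfin] at hvol
  have hpos : 0 < (1 + δ / 2) ^ d - 1 ^ d := by
    have := pow_lt_pow_left₀ (show (1 : ℝ) < 1 + δ / 2 by linarith) zero_le_one (n := d) (by omega)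
    linarith
  exact (ENNReal.mul_le_mul_iff_right (ENNReal.ofReal_pos.mpr hpos).ne' ENNReal.ofReal_ne_top).mp hvol

theorem SLI_proof (h1 : SNM_stmt) (h2 : SLF_stmt) (h3 : SLP_stmt) : SLI_stmt := by
  intro d Γ _ _ K F0 G Φ C dd hd hF
  obtain ⟨hc, h0, hl, hd1, -⟩ := h1 d G hF.met
  obtain ⟨hf1, hf2, -⟩ := h2 d G hF.met
  obtain ⟨-, hfin⟩ := h3 d G hF.met
  have hlf : IsLocallyFiniteMeasure (liou G) := SLI_fin hfin
  have hsm : Continuous (fun q : ℝ × P d => Φ q.1 q.2) := hF.flow.smooth.continuous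
  have hct : ∀ t, Continuous (Φ t) := fun t => hsm.comp (continuous_const.prodMk continuous_id)
  have hinv : ∀ t p, Φ (-t) (Φ t p) = p := fun t p => by
    rw [← hF.flow.add, neg_add_cancel, hF.flow.zero]
  have hinv' : ∀ t p, Φ t (Φ (-t) p) = p := fun t p => by
    rw [← hF.flow.add, add_neg_cancel, hF.flow.zero]
  have himg : ∀ t (A : Set (P d)), Φ t ⁻¹' A = Φ (-t) '' A := by
    intro t A
    ext p
    constructor
    · intro hp
      exact ⟨Φ t p, hp, hinv t p⟩
    · rintro ⟨q, hq, rfl⟩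
      show Φ t (Φ (-t) q) ∈ A
      rw [hinv']
      exact hq
  have hkey := SLI_key (Γ := Γ) hd hF hc hf2
  have heq : ∀ t (A : Set (P d)), IsCompact A → liou G (Φ t '' A) = liou G A := by
    intro t A hA
    refine le_antisymm ?_ (hkey t A hA)
    have h4 := hkey (-t) (Φ t '' A) (hA.image (hct t))
    rw [← himg t, preimage_image_eq _ (fun p q hpq => by rw [← hinv t p, ← hinv t q, hpq])] at h4
    exact h4
  refine ⟨fun t => ⟨(hct t).measurable, ?_⟩, fun γ => ⟨(hF.lc γ).measurable, ?_⟩⟩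
  · have hlf2 : IsLocallyFiniteMeasure ((liou G).map (Φ t)) := by
      have : IsFiniteMeasureOnCompacts ((liou G).map (Φ t)) := ⟨fun A hA => by
        rw [Measure.map_apply (hct t).measurable hA.measurableSet, himg]
        exact (hA.image (hct (-t))).measure_lt_top⟩
      exact isLocallyFiniteMeasure_of_isFiniteMeasureOnCompacts
    refine SLI_ext fun A hA => ?_
    rw [Measure.map_apply (hct t).measurable hA.measurableSet, himg]
    exact heq (-t) A hA
  · refine Measure.ext fun A hA => ?_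
    have hm := (hF.lc γ).measurable
    have hdm : Measurable (dir G : P d → P d) := by
      unfold dir
      exact measurable_fst.prodMk ((hc.measurable.inv).smul measurable_snd)
    rw [Measure.map_apply hm hA, hf1 _ (hm hA), hf1 _ hA]
    have hmA : MeasurableSet {p : P d | 0 < nrm G p ∧ nrm G p ≤ 1 ∧ dir G p ∈ A} :=
      (measurableSet_lt measurable_const hc.measurable).inter ((measurableSet_le hc.measurable measurable_const).inter (hdm hA))
    rw [← (hF.lm γ).measure_preimage hmA.nullMeasurableSet]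
    congr 1
    ext p
    have e1 : dir G (lft γ p) = lft γ (dir G p) := by
      unfold dir
      rw [hF.ln]
      unfold lft
      show (_ : P d) = (γ • p.1, _)
      rw [map_smul]
    simp only [mem_ofPred_eq, mem_preimage]
    rw [hF.ln, e1]

end

end Pool.Agent.VDE
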