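import Pool.Agent.helper62.VD.SpecE2

/-!
# Project VD (MP_07c750_an), block E part 2, row SNM: the norm
-/

set_option autoImplicit false

open MeasureTheory Filter Set Topology
open scoped ENNReal ContDiff InnerProductSpace

namespace Pool.Agent.VDE

open VD

noncomputable section

theorem SNM_inj {d : ℕ} {G : V d → V d →L[ℝ] V d} (hG : IsMetric G) (x : V d) : Function.Injective (G x) := by
  intro u v huv
  by_contra hne
  have h1 := hG.pos x (u - v) (sub_ne_zero.mpr hne)
  rw [map_sub, huv, sub_self, inner_zero_left] at h1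
  exact lt_irrefl _ h1

theorem SNM_eqv {d : ℕ} {G : V d → V d →L[ℝ] V d} (hG : IsMetric G) (x : V d) : ∃ e : V d ≃L[ℝ] V d, (e : V d →L[ℝ] V d) = G x := by
  refine ⟨(LinearEquiv.ofInjectiveEndo (G x : V d →ₗ[ℝ] V d) (SNM_inj hG x)).toContinuousLinearEquiv, ?_⟩
  ext u
  rfl

theorem SNM_app {d : ℕ} {G : V d → V d →L[ℝ] V d} (hG : IsMetric G) (x ξ : V d) : G x (IG G x ξ) = ξ := by
  obtain ⟨e, he⟩ := SNM_eqv hG x
  unfold IG
  rw [← he, ContinuousLinearMap.inverse_equiv]
  exact e.apply_symm_apply ξ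

theorem SNM_cont {d : ℕ} {G : V d → V d →L[ℝ] V d} (hG : IsMetric G) : Continuous (IG G) := by
  rw [continuous_iff_continuousAt]
  intro x
  obtain ⟨e, he⟩ := SNM_eqv hG x
  have h1 : ContinuousAt (ContinuousLinearMap.inverse : (V d →L[ℝ] V d) → (V d →L[ℝ] V d)) (G x) := by
    rw [← he]
    exact (contDiffAt_map_inverse (𝕜 := ℝ) (n := 0) e).continuousAt
  exact ContinuousAt.comp (g := ContinuousLinearMap.inverse) h1 hG.smooth.continuous.continuousAt

theorem SNM_pos {d : ℕ} {G : V d → V d →L[ℝ] V d} (hG : IsMetric G) (x ξ : V d) (hξ : ξ ≠ 0) : 0 < ⟪IG G x ξ, ξ⟫_ℝ := by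
  have h1 : IG G x ξ ≠ 0 := by
    intro h0
    apply hξ
    rw [← SNM_app hG x ξ, h0, map_zero]
  have h2 := hG.pos x _ h1
  rw [SNM_app, real_inner_comm] at h2
  · exact h2
  · exact hG

theorem SNM_proof : SNM_stmt := by
  intro d G hG
  have hc : Continuous (nrm G : P d → ℝ) := by
    unfold nrm
    refine Real.continuous_sqrt.comp ?_
    exact (((SNM_cont hG).comp continuous_fst).clm_apply continuous_snd).inner continuous_snd
  have h0 : ∀ p : P d, nrm G p = 0 ↔ p.2 = 0 := by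
    intro p
    unfold nrm
    constructor
    · intro h
      by_contra hne
      exact absurd h (Real.sqrt_pos.mpr (SNM_pos hG p.1 p.2 hne)).ne'
    · intro h
      rw [h, inner_zero_right, Real.sqrt_zero]
  have hl : ∀ (x ξ : V d) (l : ℝ), nrm G ((x, l • ξ) : P d) = |l| * nrm G (x, ξ) := by
    intro x ξ l
    unfold nrm
    show Real.sqrt ⟪IG G x (l • ξ), l • ξ⟫_ℝ = |l| * Real.sqrt ⟪IG G x ξ, ξ⟫_ℝ
    rw [map_smul, real_inner_smul_left, real_inner_smul_right, ← mul_assoc, Real.sqrt_mul (mul_self_nonneg l), Real.sqrt_mul_self_eq_abs]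
  refine ⟨hc, h0, hl, ?_, ?_⟩
  · intro p hp
    unfold dir
    rw [hl, abs_inv, abs_of_nonneg (by unfold nrm; exact Real.sqrt_nonneg _)]
    exact inv_mul_cancel₀ hp
  · intro L hL M
    obtain ⟨c, hc0, hcm⟩ := IsCompact.exists_forall_le' (hL.prod (isCompact_sphere (0 : V d) 1)) hc.continuousOn (a := 0) (by
      rintro ⟨x, u⟩ ⟨-, hu⟩
      have hu1 : ‖u‖ = 1 := by simpa using hu
      have hne : nrm G ((x, u) : P d) ≠ 0 := by
        intro h
        rw [h0] at h
        have h' : u = 0 := h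
        rw [h', norm_zero] at hu1
        exact zero_ne_one hu1
      exact lt_of_le_of_ne (by unfold nrm; exact Real.sqrt_nonneg _) hne.symm)
    have hsub : {p : P d | p.1 ∈ L ∧ nrm G p ≤ M} ⊆ L ×ˢ Metric.closedBall (0 : V d) (M / c) := by
      rintro ⟨x, ξ⟩ ⟨hx, hM⟩
      refine ⟨hx, ?_⟩
      rw [mem_closedBall_zero_iff]
      rcases eq_or_ne ξ 0 with rfl | hξ
      · rw [norm_zero]
        exact div_nonneg ((Real.sqrt_nonneg _).trans hM) hc0.le
      · have h1 := hcm (x, ‖ξ‖⁻¹ • ξ) ⟨hx, by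
          rw [mem_sphere_zero_iff_norm, norm_smul, norm_inv, norm_norm]
          exact inv_mul_cancel₀ (norm_ne_zero_iff.mpr hξ)⟩
        rw [hl, abs_inv, abs_norm] at h1
        have hpos : 0 < ‖ξ‖ := norm_pos_iff.mpr hξ
        rw [le_div_iff₀ hc0]
        have h2 : ‖ξ‖ * c ≤ ‖ξ‖ * (‖ξ‖⁻¹ * nrm G (x, ξ)) := mul_le_mul_of_nonneg_left h1 hpos.le
        rw [← mul_assoc, mul_inv_cancel₀ hpos.ne', one_mul] at h2
        exact h2.trans hM
    refine IsCompact.of_isClosed_subset (hL.prod (isCompact_closedBall _ _)) ?_ hsub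
    exact (hL.isClosed.preimage continuous_fst).inter (isClosed_le hc continuous_const)

end

end Pool.Agent.VDE
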